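import Pool.Agent.TH735.BF.Closure

set_option autoImplicit false

/-!
Closures of infinite sequences of complex numbers along entire curves in `ℂ^ℕ`.
-/

namespace Pool.Agent.U195.IS

open Set Filter Topology Pool.Agent.TH735.QM Pool.Agent.TH735.FO Pool.Agent.TH735.BF

/-- `σ` is an isomorphism from the closure of `A ∪ {x₀, x₁, …}` to the closure of
`A ∪ {y₀, y₁, …}` which maps `x_i` to `y_i`, is the identity on the closure of `A` and respects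
the relations `R j`. -/
def IsIsoN {m : ℕ → ℕ} (F : (k : ℕ) → (Fin (m k) → ℂ) → ℂ → ℂ) {ν : ℕ → ℕ}
    (R : (j : ℕ) → Set (Fin (ν j) → ℂ)) (A : Set ℂ) (x y : ℕ → ℂ)
    (σ : {z // Cl F (A ∪ range x) z} ≃ {z // Cl F (A ∪ range y) z}) : Prop :=
  (∀ i, (σ ⟨x i, Cl.base (Or.inr ⟨i, rfl⟩)⟩ : ℂ) = y i) ∧
    (∀ z, ∀ hz : Cl F A z, (σ ⟨z, hz.mono subset_union_left⟩ : ℂ) = z) ∧
    ∀ j, ∀ v : Fin (ν j) → {z // Cl F (A ∪ range x) z},
      (fun a => (v a : ℂ)) ∈ R j ↔ (fun a => (σ (v a) : ℂ)) ∈ R j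

section

variable (m : ℕ → ℕ) (F : (k : ℕ) → (Fin (m k) → ℂ) → ℂ → ℂ) (γ : ℕ → ℂ → ℂ)

/-- numbers of parameters -/
def mS : ℕ ⊕ ℕ → ℕ
  | Sum.inl k => m k
  | Sum.inr _ => 1

/-- the equations `F k y z = 0` and the equations `z = γ i y` -/
def FS : (s : ℕ ⊕ ℕ) → (Fin (mS m s) → ℂ) → ℂ → ℂ
  | Sum.inl k => F k
  | Sum.inr i => fun (y : Fin 1 → ℂ) z => z - γ i (y 0)

/-- an enumeration -/
noncomputable def en : ℕ ≃ ℕ ⊕ ℕ := Equiv.natSumNatEquivNat.symm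

theorem FS_an (hF : ∀ k, AnalyticOnNhd ℂ (fun p : (Fin (m k) → ℂ) × ℂ => F k p.1 p.2) univ)
    (hγ : ∀ i, AnalyticOnNhd ℂ (γ i) univ) (s : ℕ ⊕ ℕ) :
    AnalyticOnNhd ℂ (fun p : (Fin (mS m s) → ℂ) × ℂ => FS m F γ s p.1 p.2) univ := by
  rcases s with k | i
  · exact hF k
  · show AnalyticOnNhd ℂ (fun p : (Fin 1 → ℂ) × ℂ => p.2 - γ i (p.1 0)) univ
    intro p _
    have h1 : AnalyticAt ℂ (fun p : (Fin 1 → ℂ) × ℂ => p.1 0) p := by
      have h2 : AnalyticAt ℂ (fun y : Fin 1 → ℂ => y 0) p.1 :=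
        (ContinuousLinearMap.proj (R := ℂ) (φ := fun _ : Fin 1 => ℂ) 0).analyticAt p.1
      exact h2.comp (f := fun p : (Fin 1 → ℂ) × ℂ => p.1) (x := p) analyticAt_fst
    exact analyticAt_snd.sub ((hγ i (p.1 0) (mem_univ _)).comp
      (f := fun p : (Fin 1 → ℂ) × ℂ => p.1 0) (x := p) h1)

theorem FS_ord (hord : ∀ k, FiniteOrder (F k)) (hγ : ∀ i, AnalyticOnNhd ℂ (γ i) univ)
    (s : ℕ ⊕ ℕ) : FiniteOrder (FS m F γ s) := by
  rcases s with k | i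
  · exact hord k
  · show FiniteOrder (fun (y : Fin 1 → ℂ) z => z - γ i (y 0))
    intro y₀
    have hc : ContinuousAt (fun y : Fin 1 → ℂ => γ i (y 0)) y₀ := by
      have h1 : Continuous (γ i) := continuousOn_univ.1 (hγ i).continuousOn
      exact (h1.comp (continuous_apply 0)).continuousAt
    have hb : ∀ᶠ y in 𝓝 y₀, ‖γ i (y 0)‖ < ‖γ i (y₀ 0)‖ + 1 :=
      (hc.norm).eventually (gt_mem_nhds (by linarith))
    refine ⟨‖γ i (y₀ 0)‖ + 1, 1, ?_⟩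
    filter_upwards [hb] with y hy z
    have h1 : ‖z - γ i (y 0)‖ ≤ ‖z‖ + ‖γ i (y 0)‖ := norm_sub_le _ _
    have h2 : 0 ≤ ‖z‖ := norm_nonneg z
    have h3 : 0 ≤ ‖γ i (y₀ 0)‖ := norm_nonneg _
    have h4 : ‖z - γ i (y 0)‖ ≤ (‖γ i (y₀ 0)‖ + 1) * (1 + ‖z‖) ^ 1 := by
      rw [pow_one]; nlinarith
    exact h4.trans (le_trans (by linarith) (Real.add_one_le_exp _))

end

variable {m : ℕ → ℕ} {F : (k : ℕ) → (Fin (m k) → ℂ) → ℂ → ℂ} {γ : ℕ → ℂ → ℂ}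

theorem cl_rule {S : Set ℂ} (s : ℕ ⊕ ℕ) (y : Fin (mS m s) → ℂ) (z : ℂ)
    (hy : ∀ a, Cl (fun k => FS m F γ (en k)) S (y a)) (hne : ∃ x, FS m F γ s y x ≠ 0)
    (hz : FS m F γ s y z = 0) : Cl (fun k => FS m F γ (en k)) S z := by
  obtain ⟨k, rfl⟩ := en.surjective s
  exact Cl.zero (k := k) hy hne hz

theorem cl_up {A : Set ℂ} {t z : ℂ} (h : Cl F (A ∪ range fun i => γ i t) z) :
    Cl (fun k => FS m F γ (en k)) (A ∪ range fun _ : Fin 1 => t) z := by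
  induction h with
  | @base z hz =>
    rcases hz with hz | ⟨i, rfl⟩
    · exact Cl.base (Or.inl hz)
    · refine cl_rule (Sum.inr i) (fun _ => t) _ (fun _ => Cl.base (Or.inr ⟨0, rfl⟩))
        ⟨γ i t + 1, ?_⟩ ?_
      · show γ i t + 1 - γ i t ≠ 0
        simp
      · show γ i t - γ i t = 0
        simp
  | @zero k y z hy hne hz ih => exact cl_rule (Sum.inl k) y z ih hne hz

theorem cl_up0 {A : Set ℂ} {z : ℂ} (h : Cl F A z) : Cl (fun k => FS m F γ (en k)) A z := by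
  induction h with
  | base hz => exact Cl.base hz
  | @zero k y z hy hne hz ih => exact cl_rule (Sum.inl k) y z ih hne hz

/-- arities of the relations -/
def nS (m ν : ℕ → ℕ) : ℕ ⊕ ℕ ⊕ ℕ → ℕ
  | Sum.inl j => ν j
  | Sum.inr (Sum.inl k) => m k + 1
  | Sum.inr (Sum.inr _) => 2

/-- the relations `R j`, the relations `F k y z = 0`, `F k y ≠ 0`, and the graphs of the `γ i` -/
def RS (F : (k : ℕ) → (Fin (m k) → ℂ) → ℂ → ℂ) (γ : ℕ → ℂ → ℂ) {ν : ℕ → ℕ}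
    (R : (j : ℕ) → Set (Fin (ν j) → ℂ)) : (s : ℕ ⊕ ℕ ⊕ ℕ) → Set (Fin (nS m ν s) → ℂ)
  | Sum.inl j => R j
  | Sum.inr (Sum.inl k) => {v | (∃ x, F k (fun a => v (Fin.castSucc a)) x ≠ 0) ∧
      F k (fun a => v (Fin.castSucc a)) (v (Fin.last _)) = 0}
  | Sum.inr (Sum.inr i) => ({v : Fin 2 → ℂ | v 1 = γ i (v 0)} : Set (Fin 2 → ℂ))

theorem CQ.inter {n : ℕ} {X Y : Set (Fin n → ℂ)} (hX : CQ n X) (hY : CQ n Y) : CQ n (X ∩ Y) := by
  intro U hU hUc δ hδ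
  exact (hX U hU hUc δ hδ).inter (hY U hU hUc δ hδ)

theorem RS_CQ (hF : ∀ k, AnalyticOnNhd ℂ (fun p : (Fin (m k) → ℂ) × ℂ => F k p.1 p.2) univ)
    (hγ : ∀ i, AnalyticOnNhd ℂ (γ i) univ) {ν : ℕ → ℕ} {R : (j : ℕ) → Set (Fin (ν j) → ℂ)}
    (hR : ∀ j, CQ (ν j) (R j)) (s : ℕ ⊕ ℕ ⊕ ℕ) : CQ (nS m ν s) (RS F γ R s) := by
  rcases s with j | k | i
  · exact hR j
  · have hpr : ∀ (N : ℕ) (b : Fin N), AnalyticOnNhd ℂ (fun v : Fin N → ℂ => v b) univ := by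
      intro N b v _
      exact (ContinuousLinearMap.proj (R := ℂ) (φ := fun _ : Fin N => ℂ) b).analyticAt v
    have hin : ∀ v : Fin (m k + 1) → ℂ,
        AnalyticAt ℂ (fun v : Fin (m k + 1) → ℂ => fun a : Fin (m k) => v (Fin.castSucc a)) v :=
      fun v => analyticAt_pi_iff.2 fun a => hpr _ _ v (mem_univ _)
    refine CQ.inter (X := {v | ∃ x, F k (fun a => v (Fin.castSucc a)) x ≠ 0})
      (Y := {v | F k (fun a => v (Fin.castSucc a)) (v (Fin.last _)) = 0}) ?_ ?_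
    · obtain ⟨D, hDc, hDd⟩ := TopologicalSpace.exists_countable_dense ℂ
      have hDc' : Countable D := hDc.to_subtype
      have e : {v : Fin (m k + 1) → ℂ | ∃ x, F k (fun a => v (Fin.castSucc a)) x ≠ 0} =
          ⋃ q : D, {v : Fin (m k + 1) → ℂ | F k (fun a => v (Fin.castSucc a)) q = 0}ᶜ := by
        ext v
        simp only [Set.mem_ofPred_eq, mem_iUnion, mem_compl_iff]
        constructor
        · rintro ⟨x, hx⟩
          have hcont : Continuous (F k fun a => v (Fin.castSucc a)) :=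
            (slice_diff (hF k) _).continuous
          have hop : IsOpen {x | F k (fun a => v (Fin.castSucc a)) x ≠ 0} :=
            isOpen_ne_fun hcont continuous_const
          obtain ⟨q, hq, hqD⟩ := hDd.inter_open_nonempty _ hop ⟨x, hx⟩
          exact ⟨⟨q, hqD⟩, hq⟩
        · rintro ⟨q, hq⟩
          exact ⟨q, hq⟩
      show CQ (m k + 1) _
      rw [e]
      refine CQ.iUnion fun q => CQ.compl (CQ.zero ?_)
      intro v _
      exact (hF k (_, _) (mem_univ _)).comp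
        (f := fun v : Fin (m k + 1) → ℂ => ((fun a => v (Fin.castSucc a), (q : ℂ)) :
          (Fin (m k) → ℂ) × ℂ)) (x := v) ((hin v).prod analyticAt_const)
    · show CQ (m k + 1) _
      refine CQ.zero ?_
      intro v _
      exact (hF k (_, _) (mem_univ _)).comp
        (f := fun v : Fin (m k + 1) → ℂ => ((fun a => v (Fin.castSucc a), v (Fin.last _)) :
          (Fin (m k) → ℂ) × ℂ)) (x := v) ((hin v).prod (hpr _ _ v (mem_univ _)))
  · show CQ 2 {v : Fin 2 → ℂ | v 1 = γ i (v 0)}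
    have e : {v : Fin 2 → ℂ | v 1 = γ i (v 0)} = {v | v 1 - γ i (v 0) = 0} := by
      ext v
      simp only [Set.mem_ofPred_eq, sub_eq_zero]
    rw [e]
    refine CQ.zero ?_
    intro v _
    have h1 : ∀ b : Fin 2, AnalyticAt ℂ (fun v : Fin 2 → ℂ => v b) v := fun b =>
      (ContinuousLinearMap.proj (R := ℂ) (φ := fun _ : Fin 2 => ℂ) b).analyticAt v
    exact (h1 1).sub ((hγ i (v 0) (mem_univ _)).comp (f := fun v : Fin 2 → ℂ => v 0) (x := v)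
      (h1 0))

/-- the isomorphisms of the closures for the larger family of equations -/
structure GoodIso {ν : ℕ → ℕ} (R : (j : ℕ) → Set (Fin (ν j) → ℂ)) (F : (k : ℕ) → (Fin (m k) → ℂ) → ℂ → ℂ)
    (γ : ℕ → ℂ → ℂ) (A : Set ℂ) (t t' : ℂ)
    (σ : {z // Cl (fun k => FS m F γ (en k)) (A ∪ range fun _ : Fin 1 => t) z} ≃
      {z // Cl (fun k => FS m F γ (en k)) (A ∪ range fun _ : Fin 1 => t') z}) : Prop where
  pt : (σ ⟨t, Cl.base (Or.inr ⟨0, rfl⟩)⟩ : ℂ) = t'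
  fix : ∀ z, ∀ hz : Cl (fun k => FS m F γ (en k)) A z, (σ ⟨z, hz.mono subset_union_left⟩ : ℂ) = z
  rel : ∀ s, ∀ v : Fin (nS m ν s) →
    {z // Cl (fun k => FS m F γ (en k)) (A ∪ range fun _ : Fin 1 => t) z},
      (fun a => (v a : ℂ)) ∈ RS F γ R s ↔ (fun a => (σ (v a) : ℂ)) ∈ RS F γ R s

theorem GoodIso.symm {ν : ℕ → ℕ} {R : (j : ℕ) → Set (Fin (ν j) → ℂ)} {A : Set ℂ} {t t' : ℂ}
    {σ : {z // Cl (fun k => FS m F γ (en k)) (A ∪ range fun _ : Fin 1 => t) z} ≃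
      {z // Cl (fun k => FS m F γ (en k)) (A ∪ range fun _ : Fin 1 => t') z}}
    (h : GoodIso R F γ A t t' σ) : GoodIso R F γ A t' t σ.symm where
  pt := by
    have e : σ ⟨t, Cl.base (Or.inr ⟨0, rfl⟩)⟩ = ⟨t', Cl.base (Or.inr ⟨0, rfl⟩)⟩ :=
      Subtype.ext h.pt
    rw [← e, Equiv.symm_apply_apply]
  fix := by
    intro z hz
    have e : σ ⟨z, hz.mono subset_union_left⟩ = ⟨z, hz.mono subset_union_left⟩ :=
      Subtype.ext (h.fix z hz)
    have e2 : σ.symm ⟨z, hz.mono subset_union_left⟩ = ⟨z, hz.mono subset_union_left⟩ := by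
      rw [← e, Equiv.symm_apply_apply]
    rw [e2]
  rel := by
    intro s v
    have h1 := h.rel s (fun a => σ.symm (v a))
    simp only [Equiv.apply_symm_apply] at h1
    exact h1.symm

theorem GoodIso.maps {ν : ℕ → ℕ} {R : (j : ℕ) → Set (Fin (ν j) → ℂ)} {A : Set ℂ} {t t' : ℂ}
    {σ : {z // Cl (fun k => FS m F γ (en k)) (A ∪ range fun _ : Fin 1 => t) z} ≃
      {z // Cl (fun k => FS m F γ (en k)) (A ∪ range fun _ : Fin 1 => t') z}}
    (h : GoodIso R F γ A t t' σ) {z : ℂ} (hz : Cl F (A ∪ range fun i => γ i t) z) :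
    ∀ h' : Cl (fun k => FS m F γ (en k)) (A ∪ range fun _ : Fin 1 => t) z,
      Cl F (A ∪ range fun i => γ i t') (σ ⟨z, h'⟩ : ℂ) := by
  induction hz with
  | @base z hz =>
    intro h'
    rcases hz with hz | ⟨i, rfl⟩
    · have e : (σ ⟨z, h'⟩ : ℂ) = z := h.fix z (Cl.base hz)
      rw [e]
      exact Cl.base (Or.inl hz)
    · have h1 := (h.rel (Sum.inr (Sum.inr i)) (fun a : Fin 2 =>
        if a = 0 then ⟨t, Cl.base (Or.inr ⟨0, rfl⟩)⟩ else ⟨γ i t, h'⟩)).1 (by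
          show (_ : ℂ) = γ i _
          simp)
      have h2 : (σ ⟨γ i t, h'⟩ : ℂ) = γ i (σ ⟨t, Cl.base (Or.inr ⟨0, rfl⟩)⟩ : ℂ) := by
        have h3 : ((fun a : Fin 2 => ((σ (if a = 0 then ⟨t, Cl.base (Or.inr ⟨0, rfl⟩)⟩ else
          ⟨γ i t, h'⟩) : {z // Cl (fun k => FS m F γ (en k)) (A ∪ range fun _ : Fin 1 => t') z}) :
            ℂ)) 1) = γ i ((fun a : Fin 2 => ((σ (if a = 0 then ⟨t, Cl.base (Or.inr ⟨0, rfl⟩)⟩ else
          ⟨γ i t, h'⟩) : {z // Cl (fun k => FS m F γ (en k)) (A ∪ range fun _ : Fin 1 => t') z}) :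
            ℂ)) 0) := h1
        simpa using h3
      rw [h2, h.pt]
      exact Cl.base (Or.inr ⟨i, rfl⟩)
  | @zero k y z hy hne hz ih =>
    intro h'
    set v : Fin (m k + 1) → {z // Cl (fun k => FS m F γ (en k)) (A ∪ range fun _ : Fin 1 => t) z} :=
      Fin.snoc (α := fun _ => {z // Cl (fun k => FS m F γ (en k)) (A ∪ range fun _ : Fin 1 => t) z})
        (fun a => ⟨y a, cl_up (hy a)⟩) ⟨z, h'⟩ with hv
    have hv1 : ∀ a : Fin (m k), v (Fin.castSucc a) = ⟨y a, cl_up (hy a)⟩ := fun a =>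
      Fin.snoc_castSucc (α := fun _ =>
        {z // Cl (fun k => FS m F γ (en k)) (A ∪ range fun _ : Fin 1 => t) z}) _ _ a
    have hv2 : v (Fin.last _) = ⟨z, h'⟩ :=
      Fin.snoc_last (α := fun _ =>
        {z // Cl (fun k => FS m F γ (en k)) (A ∪ range fun _ : Fin 1 => t) z}) _ _
    have h1 : (∃ x, F k (fun a => (v (Fin.castSucc a) : ℂ)) x ≠ 0) ∧
        F k (fun a => (v (Fin.castSucc a) : ℂ)) (v (Fin.last _) : ℂ) = 0 := by
      simp only [hv1, hv2]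
      exact ⟨hne, hz⟩
    have h2 : (∃ x, F k (fun a => (σ (v (Fin.castSucc a)) : ℂ)) x ≠ 0) ∧
        F k (fun a => (σ (v (Fin.castSucc a)) : ℂ)) (σ (v (Fin.last _)) : ℂ) = 0 :=
      (h.rel (Sum.inr (Sum.inl k)) v).1 h1
    simp only [hv1, hv2] at h2
    exact Cl.zero (fun a => ih a _) h2.1 h2.2

/-- Closures of infinite sequences along entire curves: outside of a countable set of numbers `t`
all closures of `A ∪ {γ₀(t), γ₁(t), …}` are isomorphic. -/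
theorem curve_iso (hF : ∀ k, AnalyticOnNhd ℂ (fun p : (Fin (m k) → ℂ) × ℂ => F k p.1 p.2) univ)
    (hord : ∀ k, FiniteOrder (F k)) {ν : ℕ → ℕ} {R : (j : ℕ) → Set (Fin (ν j) → ℂ)}
    (hR : ∀ j, CQ (ν j) (R j)) {A : Set ℂ} (hA : A.Countable)
    (hγ : ∀ i, AnalyticOnNhd ℂ (γ i) univ) :
    ∃ B : Set ℂ, B.Countable ∧ ∀ t t', t ∉ B → t' ∉ B →
      ∃ σ, IsIsoN F R A (fun i => γ i t) (fun i => γ i t') σ := by
  have hid : AnalyticOnNhd ℂ (fun t : ℂ => fun _ : Fin 1 => t) univ := by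
    intro t _
    exact analyticAt_pi_iff.2 fun _ => analyticAt_id
  obtain ⟨B, hB, h⟩ := closures (F := fun k => FS m F γ (en k)) (m := fun k => mS m (en k))
    (fun k => FS_an m F γ hF hγ (en k)) (fun k => FS_ord m F γ hord hγ (en k))
    (R := RS F γ R) (RS_CQ hF hγ hR) hA isOpen_univ isPreconnected_univ (d := 0)
    (γ := fun t _ => t) hid
  refine ⟨B, hB, fun t t' ht ht' => ?_⟩
  obtain ⟨σ, h1, h2, h3⟩ := h t (mem_univ _) t' (mem_univ _) ht ht'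
  have hg : GoodIso R F γ A t t' σ := ⟨h1 0, h2, h3⟩
  refine ⟨⟨fun z => ⟨σ ⟨z.1, cl_up z.2⟩, hg.maps z.2 _⟩,
    fun z => ⟨σ.symm ⟨z.1, cl_up z.2⟩, hg.symm.maps z.2 _⟩, ?_, ?_⟩, ?_, ?_, ?_⟩
  · intro z
    apply Subtype.ext
    show (σ.symm ⟨(σ ⟨z.1, cl_up z.2⟩ : ℂ), _⟩ : ℂ) = z
    have e : (⟨(σ ⟨z.1, cl_up z.2⟩ : ℂ), cl_up (hg.maps z.2 _)⟩ :
        {z // Cl (fun k => FS m F γ (en k)) (A ∪ range fun _ : Fin 1 => t') z}) =
        σ ⟨z.1, cl_up z.2⟩ := Subtype.ext rfl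
    rw [e, Equiv.symm_apply_apply]
  · intro z
    apply Subtype.ext
    show (σ ⟨(σ.symm ⟨z.1, cl_up z.2⟩ : ℂ), _⟩ : ℂ) = z
    have e : (⟨(σ.symm ⟨z.1, cl_up z.2⟩ : ℂ), cl_up (hg.symm.maps z.2 _)⟩ :
        {z // Cl (fun k => FS m F γ (en k)) (A ∪ range fun _ : Fin 1 => t) z}) =
        σ.symm ⟨z.1, cl_up z.2⟩ := Subtype.ext rfl
    rw [e, Equiv.apply_symm_apply]
  · intro i
    show (σ ⟨γ i t, _⟩ : ℂ) = γ i t'
    have h' : Cl (fun k => FS m F γ (en k)) (A ∪ range fun _ : Fin 1 => t) (γ i t) :=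
      cl_up (Cl.base (Or.inr ⟨i, rfl⟩))
    have h1 := (hg.rel (Sum.inr (Sum.inr i)) (fun a : Fin 2 =>
        if a = 0 then ⟨t, Cl.base (Or.inr ⟨0, rfl⟩)⟩ else ⟨γ i t, h'⟩)).1 (by
          show (_ : ℂ) = γ i _
          simp)
    have h3 : ((fun a : Fin 2 => ((σ (if a = 0 then ⟨t, Cl.base (Or.inr ⟨0, rfl⟩)⟩ else
          ⟨γ i t, h'⟩) : {z // Cl (fun k => FS m F γ (en k)) (A ∪ range fun _ : Fin 1 => t') z}) :
            ℂ)) 1) = γ i ((fun a : Fin 2 => ((σ (if a = 0 then ⟨t, Cl.base (Or.inr ⟨0, rfl⟩)⟩ else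
          ⟨γ i t, h'⟩) : {z // Cl (fun k => FS m F γ (en k)) (A ∪ range fun _ : Fin 1 => t') z}) :
            ℂ)) 0) := h1
    have h4 : (σ ⟨γ i t, h'⟩ : ℂ) = γ i (σ ⟨t, Cl.base (Or.inr ⟨0, rfl⟩)⟩ : ℂ) := by simpa using h3
    rw [h4, hg.pt]
  · intro z hz
    exact hg.fix z (cl_up0 hz)
  · intro j v
    exact hg.rel (Sum.inl j) (fun a => ⟨(v a).1, cl_up (v a).2⟩)

end Pool.Agent.U195.IS
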