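import Pool.Agent.U195.IS.Curve
import Pool.Agent.N587.IC.End

set_option autoImplicit false

/-!
Borel enumeration of the closures of sequences of complex numbers; the isomorphism relation is
analytic and its classes are Borel sets. (Adapted from the starting library, `Pool/Agent/N587/IC`,
where the same is done for finite tuples.)
-/

namespace Pool.Agent.U195.IS

open Set MeasureTheory Pool.Agent.N587.IC
open Pool.Agent.TH735.QM Pool.Agent.TH735.FO Pool.Agent.TH735.BF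

theorem closure_enumN {m : ℕ → ℕ} {F : (k : ℕ) → (Fin (m k) → ℂ) → ℂ → ℂ}
    (hF : ∀ k, AnalyticOnNhd ℂ (fun p : (Fin (m k) → ℂ) × ℂ => F k p.1 p.2) Set.univ)
    {A : Set ℂ} (hA : A.Countable) :
    ∃ g : ℕ → (ℕ → ℂ) → ℂ, (∀ i, Measurable (g i)) ∧
      (∀ s, range (fun i => g i s) = {z | Cl F (A ∪ range s) z}) ∧
      (∀ a : ℕ, ∃ i, g i = fun s => s a) ∧
      (∀ z, Cl F A z → ∃ i, g i = fun _ => z) := by
  classical
  have hz := fun k => (Pool.Agent.Y566.GQ.zeros_enum (hF k)).2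
  choose Az gz hAz hgz hzz using hz
  set L0 : Set ((ℕ → ℂ) → ℂ) :=
    range (fun a : ℕ => fun s : ℕ → ℂ => s a) ∪
      (fun z : ℂ => fun _ : ℕ → ℂ => z) '' {z | Cl F A z} with hL0
  set h : (k : ℕ) → ℕ → (Fin (m k) → ((ℕ → ℂ) → ℂ)) → ((ℕ → ℂ) → ℂ) :=
    fun k j y s => if (fun a => y a s) ∈ Az k j then gz k j (fun a => y a s) else s 0 with hh
  set L : ℕ → Set ((ℕ → ℂ) → ℂ) := fun t => Nat.rec L0
    (fun _ T => T ∪ ⋃ k, ⋃ j, (h k j) '' {y | ∀ a, y a ∈ T}) t with hL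
  have hLz : L 0 = L0 := rfl
  have hLs : ∀ t, L (t + 1) = L t ∪ ⋃ k, ⋃ j, (h k j) '' {y | ∀ a, y a ∈ L t} := fun t => rfl
  have hcount : ∀ t, (L t).Countable := by
    intro t
    induction t with
    | zero =>
      rw [hLz]
      exact (countable_range _).union ((cl_countable hF hA).image _)
    | succ t ih =>
      rw [hLs]
      exact ih.union (countable_iUnion fun k => countable_iUnion fun j =>
        (countable_pi (fun _ => ih)).image _)
  have hmeas : ∀ t, ∀ f ∈ L t, Measurable f := by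
    intro t
    induction t with
    | zero =>
      rintro f (⟨a, rfl⟩ | ⟨z, _, rfl⟩)
      · exact measurable_pi_apply a
      · exact measurable_const
    | succ t ih =>
      intro f hf
      rw [hLs] at hf
      rcases hf with hf | hf
      · exact ih f hf
      · obtain ⟨k, hf⟩ := mem_iUnion.1 hf
        obtain ⟨j, hf⟩ := mem_iUnion.1 hf
        obtain ⟨y, hy, rfl⟩ := hf
        have hm : Measurable (fun s : ℕ → ℂ => fun a => y a s) :=
          measurable_pi_iff.2 fun a => ih _ (hy a)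
        exact Measurable.ite (hm (hAz k j)) ((hgz k j).comp hm) (measurable_pi_apply 0)
  have hval : ∀ t, ∀ f ∈ L t, ∀ s, Cl F (A ∪ range s) (f s) := by
    intro t
    induction t with
    | zero =>
      rintro f (⟨a, rfl⟩ | ⟨z, hz, rfl⟩) s
      · exact Cl.base (Or.inr ⟨a, rfl⟩)
      · exact Cl.mono subset_union_left hz
    | succ t ih =>
      intro f hf s
      rw [hLs] at hf
      rcases hf with hf | hf
      · exact ih f hf s
      · obtain ⟨k, hf⟩ := mem_iUnion.1 hf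
        obtain ⟨j, hf⟩ := mem_iUnion.1 hf
        obtain ⟨y, hy, rfl⟩ := hf
        by_cases hc : (fun a => y a s) ∈ Az k j
        · have e : h k j y s = gz k j (fun a => y a s) := if_pos hc
          rw [e]
          have h1 := (hzz k (fun a => y a s) (gz k j (fun a => y a s))).2 ⟨j, hc, rfl⟩
          exact Cl.zero (fun a => ih _ (hy a) s) h1.1 h1.2
        · have e : h k j y s = s 0 := if_neg hc
          rw [e]
          exact Cl.base (Or.inr ⟨0, rfl⟩)
  have hmono : Monotone L := by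
    apply monotone_nat_of_le_succ
    intro t
    rw [hLs]
    exact subset_union_left
  have hsurj : ∀ s z, Cl F (A ∪ range s) z → ∃ t, ∃ f ∈ L t, f s = z := by
    intro s z hz
    induction hz with
    | base hz =>
      rcases hz with hz | ⟨a, rfl⟩
      · exact ⟨0, _, Or.inr ⟨_, Cl.base hz, rfl⟩, rfl⟩
      · exact ⟨0, _, Or.inl ⟨a, rfl⟩, rfl⟩
    | @zero k y z hy hne hz ih =>
      choose t f hf hfs using ih
      have hT : ∀ a, f a ∈ L (Finset.univ.sup t) := fun a =>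
        hmono (Finset.le_sup (Finset.mem_univ a)) (hf a)
      obtain ⟨j, hj, hj'⟩ := (hzz k y z).1 ⟨hne, hz⟩
      have e : (fun a => f a s) = y := funext hfs
      refine ⟨Finset.univ.sup t + 1, h k j f, ?_, ?_⟩
      · rw [hLs]
        right
        exact mem_iUnion.2 ⟨k, mem_iUnion.2 ⟨j, ⟨f, hT, rfl⟩⟩⟩
      · have hc : (fun a => f a s) ∈ Az k j := by rw [e]; exact hj
        have e2 : h k j f s = gz k j (fun a => f a s) := if_pos hc
        rw [e2, e]
        exact hj'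
  have hcU : (⋃ t, L t).Countable := countable_iUnion hcount
  have hne : (⋃ t, L t).Nonempty := ⟨_, mem_iUnion.2 ⟨0, Or.inl ⟨0, rfl⟩⟩⟩
  obtain ⟨g, hg⟩ := hcU.exists_eq_range hne
  have hgm : ∀ i, ∃ t, g i ∈ L t := fun i => by
    have : g i ∈ ⋃ t, L t := by rw [hg]; exact mem_range_self i
    exact mem_iUnion.1 this
  have hgs : ∀ t, ∀ f ∈ L t, ∃ i, g i = f := fun t f hf => by
    have : f ∈ range g := by rw [← hg]; exact mem_iUnion.2 ⟨t, hf⟩
    exact this
  refine ⟨g, fun i => ?_, fun s => ?_, fun a => ?_, fun z hz => ?_⟩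
  · obtain ⟨t, ht⟩ := hgm i
    exact hmeas t _ ht
  · ext z
    constructor
    · rintro ⟨i, rfl⟩
      obtain ⟨t, ht⟩ := hgm i
      exact hval t _ ht s
    · intro hz
      obtain ⟨t, f, hf, hfs⟩ := hsurj s z hz
      obtain ⟨i, rfl⟩ := hgs t f hf
      exact ⟨i, hfs⟩
  · exact hgs 0 _ (Or.inl ⟨a, rfl⟩)
  · exact hgs 0 _ (Or.inr ⟨z, hz, rfl⟩)



variable {m : ℕ → ℕ} {F : (k : ℕ) → (Fin (m k) → ℂ) → ℂ → ℂ} {ν : ℕ → ℕ}
  {R : (j : ℕ) → Set (Fin (ν j) → ℂ)} {A : Set ℂ}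

theorem iso_reflN (x : ℕ → ℂ) : ∃ σ, IsIsoN F R A x x σ :=
  ⟨Equiv.refl _, fun _ => rfl, fun _ _ => rfl, fun _ _ => Iff.rfl⟩

theorem iso_transN {x y z : ℕ → ℂ} (h1 : ∃ σ, IsIsoN F R A x y σ) (h2 : ∃ σ, IsIsoN F R A y z σ) :
    ∃ σ, IsIsoN F R A x z σ := by
  obtain ⟨σ, a1, a2, a3⟩ := h1
  obtain ⟨τ, b1, b2, b3⟩ := h2
  refine ⟨σ.trans τ, fun i => ?_, fun w hw => ?_, fun j v => ?_⟩
  · have e : σ ⟨x i, Cl.base (Or.inr ⟨i, rfl⟩)⟩ = ⟨y i, Cl.base (Or.inr ⟨i, rfl⟩)⟩ :=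
      Subtype.ext (a1 i)
    rw [Equiv.trans_apply, e]
    exact b1 i
  · have e : σ ⟨w, hw.mono subset_union_left⟩ = ⟨w, hw.mono subset_union_left⟩ :=
      Subtype.ext (a2 w hw)
    rw [Equiv.trans_apply, e]
    exact b2 w hw
  · exact (a3 j v).trans (b3 j (fun a => σ (v a)))

/-- isomorphisms of closures in terms of an enumeration -/
theorem iso_iffN {g : ℕ → (ℕ → ℂ) → ℂ}
    (hgr : ∀ s, range (fun i => g i s) = {z | Cl F (A ∪ range s) z})
    (hg1 : ∀ a : ℕ, ∃ i, g i = fun s => s a)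
    (hg2 : ∀ z, Cl F A z → ∃ i, g i = fun _ => z) (x y : ℕ → ℂ) :
    (∃ σ, IsIsoN F R A x y σ) ↔ ∃ σ : range (fun i => g i x) ≃ range (fun i => g i y),
      IsoAt g {i | (∃ a : ℕ, g i = fun s => s a) ∨ ∃ z, Cl F A z ∧ g i = fun _ => z}
        R x y σ := by
  have hx := hgr x
  have hy := hgr y
  constructor
  · rintro ⟨σ, a1, a2, a3⟩
    refine ⟨(Equiv.setCongr hx).trans (σ.trans (Equiv.setCongr hy).symm), ?_, ?_⟩
    · rintro i (⟨a, hi⟩ | ⟨z, hz, hi⟩)
      · have e : (Equiv.setCongr hx) ⟨g i x, mem_range_self i⟩ =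
            ⟨x a, Cl.base (Or.inr ⟨a, rfl⟩)⟩ := by
          apply Subtype.ext
          show g i x = x a
          rw [hi]
        show ((Equiv.setCongr hy).symm (σ ((Equiv.setCongr hx) ⟨g i x, mem_range_self i⟩)) : ℂ) =
          g i y
        rw [e]
        show (σ ⟨x a, Cl.base (Or.inr ⟨a, rfl⟩)⟩ : ℂ) = g i y
        rw [a1 a, hi]
      · have e : (Equiv.setCongr hx) ⟨g i x, mem_range_self i⟩ =
            ⟨z, hz.mono subset_union_left⟩ := by
          apply Subtype.ext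
          show g i x = z
          rw [hi]
        show ((Equiv.setCongr hy).symm (σ ((Equiv.setCongr hx) ⟨g i x, mem_range_self i⟩)) : ℂ) =
          g i y
        rw [e]
        show (σ ⟨z, hz.mono subset_union_left⟩ : ℂ) = g i y
        rw [a2 z hz, hi]
    · intro j v
      exact a3 j (fun a => (Equiv.setCongr hx) (v a))
  · rintro ⟨σ, a1, a2⟩
    refine ⟨(Equiv.setCongr hx).symm.trans (σ.trans (Equiv.setCongr hy)), ?_, ?_, ?_⟩
    · intro a
      obtain ⟨i, hi⟩ := hg1 a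
      have e : (Equiv.setCongr hx).symm ⟨x a, Cl.base (Or.inr ⟨a, rfl⟩)⟩ =
          ⟨g i x, mem_range_self i⟩ := by
        apply Subtype.ext
        show x a = g i x
        rw [hi]
      show (σ ((Equiv.setCongr hx).symm ⟨x a, Cl.base (Or.inr ⟨a, rfl⟩)⟩) : ℂ) = y a
      rw [e, a1 i (Or.inl ⟨a, hi⟩), hi]
    · intro z hz
      obtain ⟨i, hi⟩ := hg2 z hz
      have e : (Equiv.setCongr hx).symm ⟨z, hz.mono subset_union_left⟩ =
          ⟨g i x, mem_range_self i⟩ := by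
        apply Subtype.ext
        show z = g i x
        rw [hi]
      show (σ ((Equiv.setCongr hx).symm ⟨z, hz.mono subset_union_left⟩) : ℂ) = z
      rw [e, a1 i (Or.inr ⟨z, hz, hi⟩), hi]
    · intro j v
      exact a2 j (fun a => (Equiv.setCongr hx).symm (v a))

/-- the isomorphism relation is analytic -/
theorem iso_analyticN (hAR : S_AR)
    (hF : ∀ k, AnalyticOnNhd ℂ (fun p : (Fin (m k) → ℂ) × ℂ => F k p.1 p.2) Set.univ)
    (hR : ∀ j, MeasurableSet (R j)) (hA : A.Countable) :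
    AnalyticSet {p : (ℕ → ℂ) × (ℕ → ℂ) | ∃ σ, IsIsoN F R A p.1 p.2 σ} := by
  obtain ⟨g, hg, hgr, hg1, hg2⟩ := closure_enumN hF hA
  have h := hAR (ℕ → ℂ) g hg
    {i | (∃ a : ℕ, g i = fun s => s a) ∨ ∃ z, Cl F A z ∧ g i = fun _ => z} ν R hR
  convert h using 1
  ext p
  exact iso_iffN hgr hg1 hg2 p.1 p.2


theorem class_measN
    (hF : ∀ k, AnalyticOnNhd ℂ (fun p : (Fin (m k) → ℂ) × ℂ => F k p.1 p.2) Set.univ)
    (hRm : ∀ j, MeasurableSet (R j)) (hA : A.Countable) (x₀ : ℕ → ℂ) :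
    MeasurableSet {y : ℕ → ℂ | ∃ σ, IsIsoN F R A x₀ y σ} := by
  obtain ⟨g, hg, hgr, hg1, hg2⟩ := closure_enumN hF hA
  have h := Pool.Agent.N687.IC.t_SC (ℕ → ℂ) g hg
    {i | (∃ a : ℕ, g i = fun s => s a) ∨ ∃ z, Cl F A z ∧ g i = fun _ => z} ν R hRm x₀
  convert h using 1
  ext q
  exact iso_iffN hgr hg1 hg2 x₀ q

end Pool.Agent.U195.IS
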