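import Pool.Agent.U195.IS.Pairs

set_option autoImplicit false

/-!
Almost all sequences, for rotation invariant (for example Gaussian) measures, and comeagre many
sequences have isomorphic closures.
-/

namespace Pool.Agent.U195.IS

open Set Filter Topology MeasureTheory Pool.Agent.N587.IC
open Pool.Agent.TH735.QM Pool.Agent.TH735.FO Pool.Agent.TH735.BF

/-- centered Gaussian measures are rotation invariant -/
theorem gauss_rot {E : Type} [NormedAddCommGroup E] [NormedSpace ℂ E] [CompleteSpace E]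
    [SecondCountableTopology E] [MeasurableSpace E] [BorelSpace E] (μ : Measure E)
    [ProbabilityTheory.IsGaussian μ] (h0 : ∫ x, x ∂μ = 0) (θ : ℝ) :
    (μ.prod μ).map (rot θ) = μ.prod μ := by
  have h := ProbabilityTheory.IsGaussian.map_rotation_eq_self (μ := μ) h0 θ
  have e : (rot θ : E × E → E × E) = ContinuousLinearMap.rotation θ := by
    funext p
    rw [ContinuousLinearMap.rotation_apply]
    simp only [rot]
    have e1 : ∀ (r : ℝ) (x : E), (r : ℂ) • x = r • x := fun r x => by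
      exact Complex.coe_smul r x
    rw [e1, e1, e1, neg_smul, neg_smul, e1]
  rw [e]
  exact h

section

variable {m : ℕ → ℕ} {F : (k : ℕ) → (Fin (m k) → ℂ) → ℂ → ℂ} {ν : ℕ → ℕ}
  {R : (j : ℕ) → Set (Fin (ν j) → ℂ)} {A : Set ℂ}
variable {E : Type} [AddCommGroup E] [Module ℂ E] [TopologicalSpace E] [IsTopologicalAddGroup E]
  [ContinuousSMul ℂ E] [PolishSpace E]

theorem generic_category
    (hF : ∀ k, AnalyticOnNhd ℂ (fun p : (Fin (m k) → ℂ) × ℂ => F k p.1 p.2) Set.univ)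
    (hord : ∀ k, FiniteOrder (F k)) (hR : ∀ j, CQ (ν j) (R j)) (hRm : ∀ j, MeasurableSet (R j))
    (hA : A.Countable) {φ : ℕ → E → ℂ} (hφ : ∀ i, Hol (φ i)) :
    ∃ x₀ : E, ∀ᶠ y in residual E, ∃ σ, IsIsoN F R A (fun i => φ i x₀) (fun i => φ i y) σ := by
  have h1 := residual_pairs (isoPairs_analytic (F := F) (R := R) hF hRm hA fun i => (hφ i).cont)
    (isoPairs_curve hF hord hR hA hφ)
  have h2 : IsMeagre (IsoPairs F R A φ)ᶜ := by
    rw [IsMeagre, compl_compl]
    exact h1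
  obtain ⟨x₀, hx₀⟩ := (dense_of_mem_residual (Pool.Agent.H566W.ku h2)).nonempty
  refine ⟨x₀, ?_⟩
  have h3 : IsMeagre {y | (x₀, y) ∈ (IsoPairs F R A φ)ᶜ} := hx₀
  rw [IsMeagre] at h3
  filter_upwards [h3] with y hy
  by_contra hno
  exact hy hno

variable [MeasurableSpace E] [BorelSpace E]

theorem generic_measure
    (hF : ∀ k, AnalyticOnNhd ℂ (fun p : (Fin (m k) → ℂ) × ℂ => F k p.1 p.2) Set.univ)
    (hord : ∀ k, FiniteOrder (F k)) (hR : ∀ j, CQ (ν j) (R j)) (hRm : ∀ j, MeasurableSet (R j))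
    (hA : A.Countable) {φ : ℕ → E → ℂ} (hφ : ∀ i, Hol (φ i)) (μ : Measure E)
    [IsProbabilityMeasure μ] (hinv : ∀ θ : ℝ, (μ.prod μ).map (rot θ) = μ.prod μ) :
    ∃ x₀ : E, ∀ᵐ y ∂μ, ∃ σ, IsIsoN F R A (fun i => φ i x₀) (fun i => φ i y) σ := by
  have h1 := ae_pairs (μ.prod μ) (Pool.Agent.N973.IC.t_AN (E × E) (μ.prod μ) _
    (isoPairs_analytic (F := F) (R := R) hF hRm hA fun i => (hφ i).cont)) hinv
    (isoPairs_curve hF hord hR hA hφ)
  obtain ⟨x₀, hx₀⟩ := (Measure.ae_ae_of_ae_prod h1).exists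
  exact ⟨x₀, hx₀⟩

end

end Pool.Agent.U195.IS
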