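import Pool.Agent.U195.IS.Prod

set_option autoImplicit false

/-!
Generic sequences are indiscernible.
-/

namespace Pool.Agent.U195.IS

open Set Filter Topology MeasureTheory MeasureTheory.Measure Pool.Agent.N587.IC
open Pool.Agent.TH735.QM Pool.Agent.TH735.FO Pool.Agent.TH735.BF

/-- The product of `μ` with itself is invariant under all rotations `rot θ`. -/
def RotationInvariant {E : Type} [AddCommGroup E] [Module ℂ E] [MeasurableSpace E]
    (μ : Measure E) : Prop :=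
  ∀ θ : ℝ, (μ.prod μ).map (rot θ) = μ.prod μ

theorem measurable_rot {E : Type} [AddCommGroup E] [Module ℂ E] [TopologicalSpace E]
    [IsTopologicalAddGroup E] [ContinuousSMul ℂ E] [PolishSpace E] [MeasurableSpace E]
    [BorelSpace E] (θ : ℝ) : Measurable (rot θ : E × E → E × E) := by
  have hc : Continuous fun p : E × E => rot θ p :=
    continuous_rot.comp (continuous_id.prodMk continuous_const)
  exact hc.measurable

variable {m : ℕ → ℕ} {F : (k : ℕ) → (Fin (m k) → ℂ) → ℂ → ℂ} {ν : ℕ → ℕ}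
  {R : (j : ℕ) → Set (Fin (ν j) → ℂ)} {A : Set ℂ}

theorem iso_symmN {x y : ℕ → ℂ} (h : ∃ σ, IsIsoN F R A x y σ) : ∃ σ, IsIsoN F R A y x σ := by
  obtain ⟨σ, a1, a2, a3⟩ := h
  refine ⟨σ.symm, fun i => ?_, fun w hw => ?_, fun j v => ?_⟩
  · have e : σ ⟨x i, Cl.base (Or.inr ⟨i, rfl⟩)⟩ = ⟨y i, Cl.base (Or.inr ⟨i, rfl⟩)⟩ :=
      Subtype.ext (a1 i)
    rw [← e, Equiv.symm_apply_apply]
  · have e : σ ⟨w, hw.mono subset_union_left⟩ = ⟨w, hw.mono subset_union_left⟩ :=
      Subtype.ext (a2 w hw)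
    have e2 : σ.symm ⟨w, hw.mono subset_union_left⟩ = ⟨w, hw.mono subset_union_left⟩ := by
      rw [← e, Equiv.symm_apply_apply]
    rw [e2]
  · have h1 := a3 j (fun a => σ.symm (v a))
    simp only [Equiv.apply_symm_apply] at h1
    exact h1.symm

/-- along entire curves in `ℂ^ℕ` the isomorphism classes have countable or cocountable traces -/
theorem class_trace
    (hF : ∀ k, AnalyticOnNhd ℂ (fun p : (Fin (m k) → ℂ) × ℂ => F k p.1 p.2) Set.univ)
    (hord : ∀ k, FiniteOrder (F k)) (hR : ∀ j, CQ (ν j) (R j)) (hA : A.Countable)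
    {γ : ℕ → ℂ → ℂ} (hγ : ∀ i, AnalyticOnNhd ℂ (γ i) univ) (x : ℕ → ℂ) :
    {t : ℂ | ∃ σ, IsIsoN F R A x (fun i => γ i t) σ}.Countable ∨
      {t : ℂ | ∃ σ, IsIsoN F R A x (fun i => γ i t) σ}ᶜ.Countable := by
  obtain ⟨B, hB, h⟩ := curve_iso hF hord hR hA hγ
  by_cases hex : ∃ t, t ∉ B ∧ ∃ σ, IsIsoN F R A x (fun i => γ i t) σ
  · right
    obtain ⟨t, ht, hs⟩ := hex
    refine hB.mono fun t' ht' => ?_
    by_contra hB'
    exact ht' (iso_transN hs (h t t' ht hB'))
  · left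
    refine hB.mono fun t ht => ?_
    by_contra hB'
    exact hex ⟨t, hB', ht⟩

theorem coord_hol (i : ℕ) : Hol (fun y : ℕ → ℂ => y i) where
  cont := continuous_apply i
  an := by
    intro x y
    have h1 : AnalyticOnNhd ℂ (fun p : ℂ × ℂ => p.1 * x i + p.2 * y i) univ := by
      intro p _
      exact (analyticAt_fst.mul analyticAt_const).add (analyticAt_snd.mul analyticAt_const)
    exact h1

theorem isOpenMap_comp {π : ℕ → ℕ} (hπ : Function.Injective π) :
    IsOpenMap (fun y : ℕ → ℂ => y ∘ π) := by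
  classical
  have h1 : IsOpenMap (Prod.fst ∘ (Homeomorph.piEquivPiSubtypeProd (fun j => j ∈ range π)
      (fun _ : ℕ => ℂ))) := isOpenMap_fst.comp (Homeomorph.isOpenMap _)
  let H : ({j // j ∈ range π} → ℂ) ≃ₜ (ℕ → ℂ) :=
    { toFun := fun f i => f ⟨π i, mem_range_self i⟩
      invFun := fun g j => g ((Equiv.ofInjective π hπ).symm j)
      left_inv := by
        intro f
        funext j
        have := (Equiv.ofInjective π hπ).apply_symm_apply j
        show f ⟨π ((Equiv.ofInjective π hπ).symm j), _⟩ = f j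
        congr 1
      right_inv := by
        intro g
        funext i
        show g ((Equiv.ofInjective π hπ).symm ⟨π i, _⟩) = g i
        congr 1
        exact (Equiv.ofInjective π hπ).symm_apply_apply i
      continuous_toFun := continuous_pi fun i => continuous_apply _
      continuous_invFun := continuous_pi fun j => continuous_apply _ }
  exact H.isOpenMap.comp h1

/-- indiscernibility, category -/
theorem indiscernible_category
    (hF : ∀ k, AnalyticOnNhd ℂ (fun p : (Fin (m k) → ℂ) × ℂ => F k p.1 p.2) Set.univ)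
    (hord : ∀ k, FiniteOrder (F k)) (hR : ∀ j, CQ (ν j) (R j)) (hRm : ∀ j, MeasurableSet (R j))
    (hA : A.Countable) {π : ℕ → ℕ} (hπ : Function.Injective π) :
    ∀ᶠ y in residual (ℕ → ℂ), ∃ σ, IsIsoN F R A y (y ∘ π) σ := by
  obtain ⟨x₀, h⟩ := generic_category (E := ℕ → ℂ) hF hord hR hRm hA coord_hol
  have h1 : IsMeagre {y : ℕ → ℂ | ∃ σ, IsIsoN F R A x₀ y σ}ᶜ := by
    rw [IsMeagre, compl_compl]
    exact h
  have hc : Continuous (fun y : ℕ → ℂ => y ∘ π) := continuous_pi fun i => continuous_apply (π i)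
  have h2 := h1.preimage_of_isOpenMap hc (isOpenMap_comp hπ)
  rw [IsMeagre] at h2
  filter_upwards [h, h2] with y hy hy2
  have hy3 : ∃ σ, IsIsoN F R A x₀ (y ∘ π) σ := by
    by_contra hno
    exact hy2 hno
  exact iso_transN (iso_symmN hy) hy3

/-- indiscernibility, measure -/
theorem indiscernible_measure
    (hF : ∀ k, AnalyticOnNhd ℂ (fun p : (Fin (m k) → ℂ) × ℂ => F k p.1 p.2) Set.univ)
    (hord : ∀ k, FiniteOrder (F k)) (hR : ∀ j, CQ (ν j) (R j)) (hRm : ∀ j, MeasurableSet (R j))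
    (hA : A.Countable) (μ : Measure ℂ) [IsProbabilityMeasure μ] (hμ : RotationInvariant μ)
    {π : ℕ → ℕ} (hπ : Function.Injective π) :
    ∀ᵐ y ∂(infinitePi fun _ : ℕ => μ), ∃ σ, IsIsoN F R A y (y ∘ π) σ := by
  have hm : ∀ θ : ℝ, Measurable (rot θ : ℂ × ℂ → ℂ × ℂ) := fun θ => measurable_rot θ
  have hinv : ∀ θ : ℝ, ((infinitePi fun _ : ℕ => μ).prod (infinitePi fun _ : ℕ => μ)).map
      (rot (E := ℕ → ℂ) θ) = (infinitePi fun _ : ℕ => μ).prod (infinitePi fun _ : ℕ => μ) :=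
    fun θ => rot_infinitePi (E := ℂ) (fun _ => μ) hm (fun _ θ' => hμ θ') θ
  obtain ⟨x₀, h⟩ : ∃ x₀ : ℕ → ℂ, ∀ᵐ y ∂(infinitePi fun _ : ℕ => μ),
      ∃ σ, IsIsoN F R A x₀ y σ :=
    generic_measure (E := ℕ → ℂ) (φ := fun i y => y i) hF hord hR hRm hA coord_hol
      (infinitePi fun _ : ℕ => μ) hinv
  have hc : Measurable (fun y : ℕ → ℂ => y ∘ π) :=
    measurable_pi_iff.2 fun i => measurable_pi_apply (π i)
  have h2 : ∀ᵐ y ∂(infinitePi fun _ : ℕ => μ), ∃ σ, IsIsoN F R A x₀ (y ∘ π) σ := by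
    have h3 : ∀ᵐ y ∂((infinitePi fun _ : ℕ => μ).map (fun y : ℕ → ℂ => y ∘ π)),
        ∃ σ, IsIsoN F R A x₀ y σ := by
      rw [map_comp_inj μ hπ]
      exact h
    exact ae_of_ae_map hc.aemeasurable h3
  filter_upwards [h, h2] with y hy hy2
  exact iso_transN (iso_symmN hy) hy2

end Pool.Agent.U195.IS
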