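import Pool.Agent.U195.IS.Enum
import Pool.Agent.H566W.Ana

set_option autoImplicit false

/-!
Almost all pairs of points of an infinite-dimensional space have isomorphic closures.
-/

namespace Pool.Agent.U195.IS

open Set Filter Topology MeasureTheory Pool.Agent.N587.IC
open Pool.Agent.TH735.QM Pool.Agent.TH735.FO Pool.Agent.TH735.BF

section

variable {E : Type} [AddCommGroup E] [Module ℂ E]

/-- the rotation of `E × E` by the angle `θ` -/
noncomputable def rot (θ : ℝ) (p : E × E) : E × E :=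
  ((Real.cos θ : ℂ) • p.1 + (Real.sin θ : ℂ) • p.2, -(Real.sin θ : ℂ) • p.1 + (Real.cos θ : ℂ) • p.2)

theorem rot_zero (p : E × E) : rot 0 p = p := by
  simp [rot]

theorem rot_neg (θ : ℝ) (p : E × E) : rot (-θ) (rot θ p) = p := by
  have h : (Real.cos θ : ℂ) * (Real.cos θ : ℂ) + (Real.sin θ : ℂ) * (Real.sin θ : ℂ) = 1 := by
    have := Real.cos_sq_add_sin_sq θ
    have h2 : ((Real.cos θ ^ 2 + Real.sin θ ^ 2 : ℝ) : ℂ) = 1 := by rw [this]; simp
    push_cast at h2
    push_cast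
    linear_combination h2
  apply Prod.ext
  · simp only [rot, Real.cos_neg, Real.sin_neg, Complex.ofReal_neg]
    rw [smul_add, smul_add, smul_smul, smul_smul, smul_smul, smul_smul]
    have : (↑(Real.cos θ) * ↑(Real.cos θ) : ℂ) • p.1 + (↑(Real.cos θ) * ↑(Real.sin θ) : ℂ) • p.2 +
        ((-↑(Real.sin θ) * -↑(Real.sin θ) : ℂ) • p.1 + (-↑(Real.sin θ) * ↑(Real.cos θ) : ℂ) • p.2) =
        ((↑(Real.cos θ) * ↑(Real.cos θ) + ↑(Real.sin θ) * ↑(Real.sin θ) : ℂ)) • p.1 := by
      module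
    rw [this, h, one_smul]
  · simp only [rot, Real.cos_neg, Real.sin_neg, Complex.ofReal_neg, neg_neg]
    rw [smul_add, smul_add, smul_smul, smul_smul, smul_smul, smul_smul]
    have : (↑(Real.sin θ) * ↑(Real.cos θ) : ℂ) • p.1 + (↑(Real.sin θ) * ↑(Real.sin θ) : ℂ) • p.2 +
        ((↑(Real.cos θ) * -↑(Real.sin θ) : ℂ) • p.1 + (↑(Real.cos θ) * ↑(Real.cos θ) : ℂ) • p.2) =
        ((↑(Real.cos θ) * ↑(Real.cos θ) + ↑(Real.sin θ) * ↑(Real.sin θ) : ℂ)) • p.2 := by
      module
    rw [this, h, one_smul]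

variable [TopologicalSpace E] [IsTopologicalAddGroup E] [ContinuousSMul ℂ E]

theorem continuous_rot : Continuous (fun q : (E × E) × ℝ => rot q.2 q.1) := by
  unfold rot
  have hc : Continuous fun q : (E × E) × ℝ => ((Real.cos q.2 : ℝ) : ℂ) :=
    Complex.continuous_ofReal.comp (Real.continuous_cos.comp continuous_snd)
  have hs : Continuous fun q : (E × E) × ℝ => ((Real.sin q.2 : ℝ) : ℂ) :=
    Complex.continuous_ofReal.comp (Real.continuous_sin.comp continuous_snd)
  have h1 : Continuous fun q : (E × E) × ℝ => q.1.1 := continuous_fst.comp continuous_fst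
  have h2 : Continuous fun q : (E × E) × ℝ => q.1.2 := continuous_snd.comp continuous_fst
  exact ((hc.smul h1).add (hs.smul h2)).prodMk ((hs.neg.smul h1).add (hc.smul h2))

/-- the homeomorphism `(p, θ) ↦ (rot θ p, θ)` -/
noncomputable def rotH : (E × E) × ℝ ≃ₜ (E × E) × ℝ where
  toFun q := (rot q.2 q.1, q.2)
  invFun q := (rot (-q.2) q.1, q.2)
  left_inv q := by
    apply Prod.ext
    · exact rot_neg q.2 q.1
    · rfl
  right_inv q := by
    apply Prod.ext
    · have := rot_neg (-q.2) q.1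
      rw [neg_neg] at this
      exact this
    · rfl
  continuous_toFun := continuous_rot.prodMk continuous_snd
  continuous_invFun := by
    have h : Continuous fun q : (E × E) × ℝ => (q.1, -q.2) :=
      continuous_fst.prodMk continuous_snd.neg
    exact (continuous_rot.comp h).prodMk continuous_snd

theorem isOpenMap_rot : IsOpenMap (fun q : (E × E) × ℝ => rot q.2 q.1) := by
  have h : (fun q : (E × E) × ℝ => rot q.2 q.1) = Prod.fst ∘ (rotH (E := E)) := rfl
  rw [h]
  exact isOpenMap_fst.comp rotH.isOpenMap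

/-- category -/
theorem residual_pairs [PolishSpace E] {D : Set (E × E)} (hD : AnalyticSet D)
    (hcurve : ∀ p : E × E, ∃ B : Set ℝ, B.Countable ∧ ∀ θ ∉ B, rot θ p ∈ D) :
    ∀ᶠ p in residual (E × E), p ∈ D := by
  have hne : ¬ (univ : Set ℝ).Countable := Cardinal.not_countable_real
  rw [AnalyticSet] at hD
  rcases hD with rfl | ⟨f, hf, rfl⟩
  · exfalso
    obtain ⟨B, hB, h⟩ := hcurve 0
    refine hne (hB.mono fun θ _ => ?_)
    by_contra hθ
    exact h θ hθ
  have h1 := Pool.Agent.H566W.sdiff_Dn (range f)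
  have h2 := Pool.Agent.H566W.analytic_bp hf
  have hall : Pool.Agent.H566W.Dn (range f) = univ := by
    by_contra hcon
    obtain ⟨p₀, hp₀⟩ : ∃ p, p ∉ Pool.Agent.H566W.Dn (range f) := by
      by_contra hno
      push Not at hno
      exact hcon (eq_univ_of_forall hno)
    have hO : IsOpen (Pool.Agent.H566W.Dn (range f))ᶜ :=
      (Pool.Agent.H566W.Dn_closed _).isOpen_compl
    have h3 : IsMeagre ((fun q : (E × E) × ℝ => rot q.2 q.1) ⁻¹'
        (range f \ Pool.Agent.H566W.Dn (range f))) :=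
      h1.preimage_of_isOpenMap continuous_rot isOpenMap_rot
    have h4 := dense_of_mem_residual (Pool.Agent.H566W.ku h3)
    obtain ⟨p, hpO, hp⟩ := mem_closure_iff.1 (h4 p₀) _ hO hp₀
    obtain ⟨B, hB, h⟩ := hcurve p
    have hJ : IsOpen {θ : ℝ | rot θ p ∈ (Pool.Agent.H566W.Dn (range f))ᶜ} := by
      have hc : Continuous fun θ : ℝ => rot θ p :=
        continuous_rot.comp (continuous_const.prodMk continuous_id)
      exact hO.preimage hc
    have hBm : IsMeagre B := by
      have e : B = ⋃ x ∈ B, {x} := by simp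
      rw [e]
      refine isMeagre_biUnion hB fun x _ => ?_
      refine IsNowhereDense.isMeagre ?_
      rw [IsNowhereDense, closure_singleton, interior_singleton]
    refine not_isMeagre_of_isOpen hJ ⟨0, by
      show rot 0 p ∈ (Pool.Agent.H566W.Dn (range f))ᶜ
      rw [rot_zero]; exact hpO⟩ (IsMeagre.mono ?_ (IsMeagre.union hp hBm))
    intro θ hθ
    by_cases hθB : θ ∈ B
    · exact Or.inr hθB
    · exact Or.inl ⟨h θ hθB, hθ⟩
  rw [hall] at h2
  have h5 : IsMeagre (range f)ᶜ := by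
    refine IsMeagre.mono ?_ h2
    intro p hp
    exact ⟨mem_univ _, hp⟩
  rw [IsMeagre, compl_compl] at h5
  exact h5

variable [MeasurableSpace E] [BorelSpace E]

/-- measure -/
theorem ae_pairs [PolishSpace E] {D : Set (E × E)} (ρ : Measure (E × E)) [IsFiniteMeasure ρ]
    (hD : NullMeasurableSet D ρ) (hinv : ∀ θ : ℝ, ρ.map (rot θ) = ρ)
    (hcurve : ∀ p : E × E, ∃ B : Set ℝ, B.Countable ∧ ∀ θ ∉ B, rot θ p ∈ D) :
    ∀ᵐ p ∂ρ, p ∈ D := by
  obtain ⟨D₁, hD₁D, hD₁m, hD₁ae⟩ := hD.exists_measurable_subset_ae_eq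
  have hN0 : ρ (D \ D₁) = 0 := ae_le_set.1 hD₁ae.symm.le
  set N := toMeasurable ρ (D \ D₁) with hN
  have hNm : MeasurableSet N := measurableSet_toMeasurable _ _
  have hN0' : ρ N = 0 := by rw [hN, measure_toMeasurable]; exact hN0
  have hsub : D ⊆ D₁ ∪ N := by
    intro p hp
    by_cases h : p ∈ D₁
    · exact Or.inl h
    · exact Or.inr (subset_toMeasurable _ _ ⟨hp, h⟩)
  have hm2 : MeasurableSet (D₁ ∪ N) := hD₁m.union hNm
  have hS : MeasurableSet {q : (E × E) × ℝ | rot q.2 q.1 ∉ D₁ ∪ N} :=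
    continuous_rot.measurable hm2.compl
  set lam : Measure ℝ := volume.restrict (Icc 0 1) with hlam
  have h1 : (ρ.prod lam) {q : (E × E) × ℝ | rot q.2 q.1 ∉ D₁ ∪ N} = 0 := by
    rw [Measure.measure_prod_null hS]
    refine Filter.Eventually.of_forall fun p => ?_
    obtain ⟨B, hB, h⟩ := hcurve p
    have h2 : (Prod.mk p ⁻¹' {q : (E × E) × ℝ | rot q.2 q.1 ∉ D₁ ∪ N} : Set ℝ) ⊆ B := by
      intro θ hθ
      by_contra hθB
      exact hθ (hsub (h θ hθB))
    exact measure_mono_null h2 (hB.measure_zero _)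
  have h2 : (lam.prod ρ) (Prod.swap ⁻¹' {q : (E × E) × ℝ | rot q.2 q.1 ∉ D₁ ∪ N}) = 0 := by
    rw [← Measure.prod_swap, Measure.map_apply measurable_swap hS] at h1
    exact h1
  rw [Measure.measure_prod_null (measurable_swap hS)] at h2
  have hlam0 : NeZero lam := by
    refine ⟨fun h => ?_⟩
    have h3 : lam univ = 1 := by
      rw [hlam, Measure.restrict_apply_univ, Real.volume_Icc]
      simp
    rw [h] at h3
    simp at h3
  obtain ⟨θ, hθ⟩ := h2.exists
  have hrm : Measurable (rot θ : E × E → E × E) := by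
    have hc : Continuous fun p : E × E => rot θ p :=
      continuous_rot.comp (continuous_id.prodMk continuous_const)
    exact hc.measurable
  have h3 : ρ (D₁ ∪ N)ᶜ = 0 := by
    rw [← hinv θ, Measure.map_apply hrm hm2.compl]
    exact hθ
  have h4 : ∀ᵐ p ∂ρ, p ∈ D₁ ∪ N := h3
  have h5 : ∀ᵐ p ∂ρ, p ∉ N := by
    rw [ae_iff]
    simpa using hN0'
  filter_upwards [h4, h5] with p hp hpN
  rcases hp with hp | hp
  · exact hD₁D hp
  · exact absurd hp hpN

end

/-- continuous functions which are entire on every complex plane through `0` (holomorphic functions on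
a complex topological vector space) -/
structure Hol {E : Type} [AddCommGroup E] [Module ℂ E] [TopologicalSpace E] (φ : E → ℂ) : Prop where
  cont : Continuous φ
  an : ∀ x y : E, AnalyticOnNhd ℂ (fun p : ℂ × ℂ => φ (p.1 • x + p.2 • y)) univ

section

variable {m : ℕ → ℕ} {F : (k : ℕ) → (Fin (m k) → ℂ) → ℂ → ℂ} {ν : ℕ → ℕ}
  {R : (j : ℕ) → Set (Fin (ν j) → ℂ)} {A : Set ℂ}
variable {E : Type} [AddCommGroup E] [Module ℂ E] [TopologicalSpace E]

/-- the pairs with isomorphic closures -/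
def IsoPairs {m : ℕ → ℕ} (F : (k : ℕ) → (Fin (m k) → ℂ) → ℂ → ℂ) {ν : ℕ → ℕ}
    (R : (j : ℕ) → Set (Fin (ν j) → ℂ)) (A : Set ℂ) {E : Type} (φ : ℕ → E → ℂ) : Set (E × E) :=
  {p | ∃ σ, IsIsoN F R A (fun i => φ i p.1) (fun i => φ i p.2) σ}

theorem isoPairs_curve
    (hF : ∀ k, AnalyticOnNhd ℂ (fun p : (Fin (m k) → ℂ) × ℂ => F k p.1 p.2) Set.univ)
    (hord : ∀ k, FiniteOrder (F k)) (hR : ∀ j, CQ (ν j) (R j)) (hA : A.Countable)
    {φ : ℕ → E → ℂ} (hφ : ∀ i, Hol (φ i)) (p : E × E) :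
    ∃ B : Set ℝ, B.Countable ∧ ∀ θ ∉ B, rot θ p ∈ IsoPairs F R A φ := by
  have hcs : AnalyticOnNhd ℂ (fun θ : ℂ => (Complex.cos θ, Complex.sin θ)) univ := by
    intro θ _
    exact (Complex.differentiable_cos.analyticAt θ).prod (Complex.differentiable_sin.analyticAt θ)
  have hγ : ∀ i, AnalyticOnNhd ℂ (fun θ : ℂ => φ i (Complex.cos θ • p.1 + Complex.sin θ • p.2))
      univ := by
    intro i
    exact ((hφ i).an p.1 p.2).comp hcs (mapsTo_univ _ _)
  obtain ⟨B, hB, h⟩ := curve_iso hF hord hR hA hγ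
  have hinj1 : Function.Injective (fun θ : ℝ => (θ : ℂ)) := Complex.ofReal_injective
  have hinj2 : Function.Injective (fun θ : ℝ => ((θ + Real.pi / 2 : ℝ) : ℂ)) := by
    intro a b hab
    have := Complex.ofReal_injective hab
    linarith
  refine ⟨(fun θ : ℝ => (θ : ℂ)) ⁻¹' B ∪ (fun θ : ℝ => ((θ + Real.pi / 2 : ℝ) : ℂ)) ⁻¹' B,
    (hB.preimage_of_injOn hinj1.injOn).union (hB.preimage_of_injOn hinj2.injOn), ?_⟩
  intro θ hθ
  rw [mem_union, not_or] at hθ
  have h1 := h _ _ hθ.1 hθ.2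
  have e1 : (fun i => φ i (Complex.cos (θ : ℂ) • p.1 + Complex.sin (θ : ℂ) • p.2)) =
      fun i => φ i (rot θ p).1 := by
    funext i
    simp only [rot, Complex.ofReal_cos, Complex.ofReal_sin]
  have e2 : (fun i => φ i (Complex.cos ((θ + Real.pi / 2 : ℝ) : ℂ) • p.1 +
      Complex.sin ((θ + Real.pi / 2 : ℝ) : ℂ) • p.2)) = fun i => φ i (rot θ p).2 := by
    funext i
    have h2 : Complex.cos ((θ + Real.pi / 2 : ℝ) : ℂ) = -Complex.sin (θ : ℂ) := by
      push_cast
      exact Complex.cos_add_pi_div_two _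
    have h3 : Complex.sin ((θ + Real.pi / 2 : ℝ) : ℂ) = Complex.cos (θ : ℂ) := by
      push_cast
      exact Complex.sin_add_pi_div_two _
    simp only [rot, h2, h3, Complex.ofReal_cos, Complex.ofReal_sin]
  rw [e1, e2] at h1
  exact h1

variable [PolishSpace E]

theorem isoPairs_analytic
    (hF : ∀ k, AnalyticOnNhd ℂ (fun p : (Fin (m k) → ℂ) × ℂ => F k p.1 p.2) Set.univ)
    (hRm : ∀ j, MeasurableSet (R j)) (hA : A.Countable) {φ : ℕ → E → ℂ}
    (hφ : ∀ i, Continuous (φ i)) : AnalyticSet (IsoPairs F R A φ) := by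
  have h1 := iso_analyticN Pool.Agent.N663.IC.t_AR hF hRm hA
  exact h1.preimage (f := fun p : E × E => ((fun i => φ i p.1, fun i => φ i p.2) :
      (ℕ → ℂ) × (ℕ → ℂ)))
    ((continuous_pi fun i => (hφ i).comp continuous_fst).prodMk
      (continuous_pi fun i => (hφ i).comp continuous_snd))

end

end Pool.Agent.U195.IS
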