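import Pool.Agent.U195.IS.Fin

set_option autoImplicit false

/-!
Infinite products of rotation invariant measures are rotation invariant.
-/

namespace Pool.Agent.U195.IS

open Set Filter Topology MeasureTheory MeasureTheory.Measure

section

variable {X Y : Type} [MeasurableSpace X] [MeasurableSpace Y]

/-- a pair of sequences as a sequence of pairs -/
def zip (p : (ℕ → X) × (ℕ → Y)) : ℕ → X × Y := fun i => (p.1 i, p.2 i)

/-- a sequence of pairs as a pair of sequences -/
def unzip (q : ℕ → X × Y) : (ℕ → X) × (ℕ → Y) := (fun i => (q i).1, fun i => (q i).2)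

theorem unzip_zip (p : (ℕ → X) × (ℕ → Y)) : unzip (zip p) = p := rfl

theorem measurable_zip : Measurable (zip : (ℕ → X) × (ℕ → Y) → ℕ → X × Y) :=
  measurable_pi_iff.2 fun i => ((measurable_pi_apply i).comp measurable_fst).prodMk
    ((measurable_pi_apply i).comp measurable_snd)

theorem measurable_unzip : Measurable (unzip : (ℕ → X × Y) → (ℕ → X) × (ℕ → Y)) :=
  (measurable_pi_iff.2 fun i => measurable_fst.comp (measurable_pi_apply i)).prodMk
    (measurable_pi_iff.2 fun i => measurable_snd.comp (measurable_pi_apply i))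

theorem map_zip (μ : ℕ → Measure X) (ν : ℕ → Measure Y) [∀ i, IsProbabilityMeasure (μ i)]
    [∀ i, IsProbabilityMeasure (ν i)] :
    ((infinitePi μ).prod (infinitePi ν)).map zip = infinitePi (fun i => (μ i).prod (ν i)) := by
  classical
  refine eq_infinitePi _ fun s t ht => ?_
  have hpi : MeasurableSet ((s : Set ℕ).pi t) := MeasurableSet.pi s.countable_toSet fun i _ => ht i
  rw [Measure.map_apply measurable_zip hpi]
  set T : Set ((s → X) × (s → Y)) := {p | ∀ i : s, (p.1 i, p.2 i) ∈ t i} with hT
  have hTm : MeasurableSet T := by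
    have e : T = ⋂ i : s, (fun p : (s → X) × (s → Y) => (p.1 i, p.2 i)) ⁻¹' (t i) := by
      ext p; simp [hT]
    rw [e]
    exact MeasurableSet.iInter fun i => (((measurable_pi_apply i).comp measurable_fst).prodMk
      ((measurable_pi_apply i).comp measurable_snd)) (ht i)
  have e1 : zip ⁻¹' ((s : Set ℕ).pi t) =
      (Prod.map (s.restrict : (ℕ → X) → (s → X)) (s.restrict : (ℕ → Y) → (s → Y))) ⁻¹' T := by
    ext p
    simp only [mem_preimage, Set.mem_pi, hT, Set.mem_ofPred_eq, Prod.map]
    constructor
    · intro h i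
      exact h i i.2
    · intro h i hi
      exact h ⟨i, hi⟩
  have hr1 : Measurable (s.restrict : (ℕ → X) → (s → X)) := Finset.measurable_restrict s
  have hr2 : Measurable (s.restrict : (ℕ → Y) → (s → Y)) := Finset.measurable_restrict s
  rw [e1, ← Measure.map_apply (hr1.prodMap hr2) hTm, ← Measure.map_prod_map _ _ hr1 hr2,
    infinitePi_map_restrict, infinitePi_map_restrict]
  have hmp := measurePreserving_arrowProdEquivProdArrow X Y s (fun i : s => μ i) (fun i : s => ν i)
  rw [← hmp.map_eq, Measure.map_apply (MeasurableEquiv.measurable _) hTm]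
  have e2 : (MeasurableEquiv.arrowProdEquivProdArrow X Y s) ⁻¹' T = univ.pi (fun i : s => t i) := by
    ext q
    simp only [mem_preimage, hT, Set.mem_ofPred_eq, Set.mem_pi, mem_univ, forall_true_left]
    exact Iff.rfl
  rw [e2, Measure.pi_pi]
  exact Finset.prod_attach s (fun i => ((μ i).prod (ν i)) (t i))

end

variable {E : Type} [AddCommGroup E] [Module ℂ E] [MeasurableSpace E]

theorem rot_infinitePi (μ : ℕ → Measure E) [∀ i, IsProbabilityMeasure (μ i)]
    (hm : ∀ θ : ℝ, Measurable (rot θ : E × E → E × E))
    (h : ∀ i, ∀ θ : ℝ, ((μ i).prod (μ i)).map (rot θ) = (μ i).prod (μ i)) (θ : ℝ) :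
    ((infinitePi μ).prod (infinitePi μ)).map (rot θ) = (infinitePi μ).prod (infinitePi μ) := by
  have e : (rot θ : (ℕ → E) × (ℕ → E) → (ℕ → E) × (ℕ → E)) =
      unzip ∘ (fun q i => rot θ (q i)) ∘ zip := by
    funext p
    rfl
  have hc : Measurable (fun (q : ℕ → E × E) i => rot θ (q i)) :=
    measurable_pi_iff.2 fun i => (hm θ).comp (measurable_pi_apply i)
  have e0 : ((infinitePi μ).prod (infinitePi μ)).map (unzip ∘ zip) =
      (infinitePi μ).prod (infinitePi μ) := by
    have : (unzip ∘ zip : (ℕ → E) × (ℕ → E) → (ℕ → E) × (ℕ → E)) = id := rfl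
    rw [this, Measure.map_id]
  rw [e, ← Measure.map_map measurable_unzip (hc.comp measurable_zip),
    ← Measure.map_map hc measurable_zip, map_zip, infinitePi_map_pi _ (fun _ => hm θ)]
  simp only [h]
  rw [← map_zip, Measure.map_map measurable_unzip measurable_zip, e0]

/-- reindexing an identically distributed independent sequence by an injection -/
theorem map_comp_inj (μ : Measure E) [IsProbabilityMeasure μ] {π : ℕ → ℕ}
    (hπ : Function.Injective π) :
    (infinitePi fun _ : ℕ => μ).map (fun y => y ∘ π) = infinitePi fun _ : ℕ => μ := by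
  classical
  have hm : Measurable (fun y : ℕ → E => y ∘ π) :=
    measurable_pi_iff.2 fun i => measurable_pi_apply (π i)
  refine eq_infinitePi _ fun s t ht => ?_
  rw [Measure.map_apply hm (MeasurableSet.pi s.countable_toSet fun i _ => ht i)]
  have e : (fun y : ℕ → E => y ∘ π) ⁻¹' ((s : Set ℕ).pi t) =
      ((s.image π : Finset ℕ) : Set ℕ).pi (fun j => if h : ∃ i, π i = j then t h.choose else univ) := by
    ext y
    simp only [mem_preimage, Set.mem_pi, Finset.coe_image, Set.mem_image, Finset.mem_coe,
      Function.comp_apply, forall_exists_index, and_imp, forall_apply_eq_imp_iff₂]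
    refine forall₂_congr fun i hi => ?_
    have hex : ∃ i', π i' = π i := ⟨i, rfl⟩
    rw [dif_pos hex]
    have : hex.choose = i := hπ hex.choose_spec
    rw [this]
  rw [e, infinitePi_pi, Finset.prod_image (fun a _ b _ hab => hπ hab)]
  · refine Finset.prod_congr rfl fun i _ => ?_
    have hex : ∃ i', π i' = π i := ⟨i, rfl⟩
    rw [dif_pos hex]
    have : hex.choose = i := hπ hex.choose_spec
    rw [this]
  · intro j _
    by_cases h : ∃ i, π i = j
    · rw [dif_pos h]; exact ht _
    · rw [dif_neg h]; exact MeasurableSet.univ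

end Pool.Agent.U195.IS
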